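import Mathlib

set_option autoImplicit false

namespace Pool.Agent.Results.MP_e59eee_co.Counter

/-- `c` is compact: below the join of a directed set only if below one of its members. -/
def Compact {P : Type} [PartialOrder P] (c : P) : Prop :=
  ∀ D : Set P, D.Nonempty → DirectedOn (· ≤ ·) D → ∀ s, IsLUB D s → c ≤ s → ∃ d ∈ D, c ≤ d

/-- Up-complete, and every element is the join of a directed set of compact elements. -/
def Algebraic (P : Type) [PartialOrder P] : Prop :=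
  (∀ D : Set P, D.Nonempty → DirectedOn (· ≤ ·) D → ∃ s, IsLUB D s) ∧
    ∀ x : P, ∃ D : Set P, D.Nonempty ∧ DirectedOn (· ≤ ·) D ∧ (∀ c ∈ D, Compact c) ∧ IsLUB D x

open Order

theorem lub {Q : Type} [PartialOrder Q] (D : Set (Ideal Q)) (hne : D.Nonempty)
    (hD : DirectedOn (· ≤ ·) D) : ∃ s : Ideal Q, IsLUB D s ∧ ∀ q ∈ s, ∃ d ∈ D, q ∈ d := by
  refine ⟨⟨⟨{q | ∃ d ∈ D, q ∈ d}, fun a b h ⟨d, h1, h2⟩ => ⟨d, h1, d.lower h h2⟩⟩, ?_, ?_⟩,
    ⟨fun d hd q hq => ⟨d, hd, hq⟩, fun u hu q ⟨d, h1, h2⟩ => hu h1 h2⟩, fun q h => h⟩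
  · obtain ⟨d, hd⟩ := hne
    obtain ⟨q, hq⟩ := d.nonempty
    exact ⟨q, d, hd, hq⟩
  · rintro a ⟨d, h1, h2⟩ b ⟨e, h3, h4⟩
    obtain ⟨f, hf, e1, e2⟩ := hD d h1 e h3
    obtain ⟨c, hc, h⟩ := f.directed a (e1 h2) b (e2 h4)
    exact ⟨c, ⟨f, hf, hc⟩, h⟩

theorem alg (Q : Type) [PartialOrder Q] : Algebraic (Ideal Q) := by
  refine ⟨fun D h1 h2 => (lub D h1 h2).imp fun _ h => h.1, fun x =>
    ⟨Ideal.principal '' x, x.nonempty.image _, ?_, ?_, ?_, ?_⟩⟩
  · rintro _ ⟨a, ha, rfl⟩ _ ⟨b, hb, rfl⟩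
    obtain ⟨c, hc, h1, h2⟩ := x.directed a ha b hb
    exact ⟨_, ⟨c, hc, rfl⟩, Ideal.principal_le_iff.2 h1, Ideal.principal_le_iff.2 h2⟩
  · rintro _ ⟨a, -, rfl⟩ D h1 h2 s hs h
    obtain ⟨s', e1, e2⟩ := lub D h1 h2
    obtain ⟨d, hd, h'⟩ := e2 a (hs.unique e1 ▸ Ideal.principal_le_iff.1 h)
    exact ⟨d, hd, Ideal.principal_le_iff.2 h'⟩
  · rintro _ ⟨a, ha, rfl⟩
    exact Ideal.principal_le_iff.2 ha
  · exact fun u hu a ha => Ideal.principal_le_iff.1 (hu ⟨a, ha, rfl⟩)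

def Q : Type := ℕ × ℚ≥0

instance : PartialOrder Q where
  le a b := a = b ∨ (a.1 < b.1 ∧ (a.2 < b.2 ∨ a.2 = 0))
  le_refl _ := Or.inl rfl
  le_trans a b c h h' := by
    rcases h with rfl | h
    · exact h'
    rcases h' with rfl | h'
    · exact Or.inr h
    refine Or.inr ⟨h.1.trans h'.1, ?_⟩
    rcases h.2 with e | e
    · rcases h'.2 with f | f
      · exact Or.inl (e.trans f)
      · exact absurd (f ▸ e) (not_lt.2 zero_le)
    · exact Or.inr e
  le_antisymm a b h h' := by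
    rcases h with rfl | h
    · rfl
    rcases h' with rfl | h'
    · rfl
    exact absurd h.1 h'.1.asymm

def mk (n : ℕ) (r : ℚ≥0) : Q := (n, r)

/-- The ideal of pairs with second coordinate `0` or below `s`. -/
def I (s : ℚ≥0) : Ideal Q where
  carrier := {q | q.2 < s ∨ q.2 = 0}
  lower' := by
    rintro a b (rfl | h) ha
    · exact ha
    · rcases h.2 with e | e
      · rcases ha with f | f
        · exact Or.inl (e.trans f)
        · exact absurd (f ▸ e) (not_lt.2 zero_le)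
      · exact Or.inr e
  nonempty' := ⟨mk 0 0, Or.inr rfl⟩
  directed' := by
    intro a ha b hb
    by_cases hs : s = 0
    · subst hs
      exact ⟨mk (a.1 + b.1 + 1) 0, Or.inr rfl,
        Or.inr ⟨show a.1 < a.1 + b.1 + 1 by omega, Or.inr (ha.resolve_left (not_lt.2 zero_le))⟩,
        Or.inr ⟨show b.1 < a.1 + b.1 + 1 by omega, Or.inr (hb.resolve_left (not_lt.2 zero_le))⟩⟩
    · have hs' : 0 < s := pos_iff_ne_zero.2 hs
      obtain ⟨r, h1, h2⟩ := exists_between (max_lt (ha.elim id fun h => h ▸ hs')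
        (hb.elim id fun h => h ▸ hs'))
      exact ⟨mk (a.1 + b.1 + 1) r, Or.inl h2,
        Or.inr ⟨show a.1 < a.1 + b.1 + 1 by omega, Or.inl ((le_max_left _ _).trans_lt h1)⟩,
        Or.inr ⟨show b.1 < a.1 + b.1 + 1 by omega, Or.inl ((le_max_right _ _).trans_lt h1)⟩⟩

theorem up {u : Ideal Q} (h : I 0 ≤ u) {a : Q} (ha : a ∈ u) (n : ℕ) :
    ∃ b ∈ u, n < b.1 ∧ (a.2 < b.2 ∨ a.2 = 0) := by
  obtain ⟨b, hb, h1, h2⟩ := u.directed a ha (mk (a.1 + n + 1) 0) (h (Or.inr rfl))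
  have e : a.1 + n + 1 ≤ b.1 := by
    rcases h2 with rfl | h2
    · exact le_rfl
    · exact h2.1.le
  rcases h1 with rfl | h1
  · omega
  · exact ⟨b, hb, by omega, h1.2⟩

theorem low {u : Ideal Q} (h : I 0 ≤ u) {a b : Q} (ha : a ∈ u) (hb : b.2 ≤ a.2) : b ∈ u := by
  obtain ⟨c, hc, h1, h2⟩ := up h ha b.1
  refine u.lower (show b ≤ c from Or.inr ⟨h1, ?_⟩) hc
  rcases h2 with e | e
  · exact Or.inl (hb.trans_lt e)
  · exact Or.inr (le_antisymm (e ▸ hb) zero_le)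

/-- An algebraic poset with an interval `[x, y]`, `x < y`, containing no covering pair. -/
theorem result : ∃ (P : Type) (_ : PartialOrder P), Algebraic P ∧
    ∃ x y : P, x < y ∧ ∀ u v : P, x ≤ u → v ≤ y → ¬ u ⋖ v := by
  refine ⟨Ideal Q, inferInstance, alg Q, I 0, I 1, lt_of_le_not_ge
    (fun a ha => Or.inr (Or.resolve_left ha (not_lt.2 zero_le))) fun h => ?_, fun u v hu _ h => ?_⟩
  · have : mk 0 (1 / 2) ∈ I 0 := h (Or.inl (show (1 / 2 : ℚ≥0) < 1 by norm_num))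
    rcases this with e | e
    · exact not_lt.2 zero_le e
    · exact absurd (show (1 / 2 : ℚ≥0) = 0 from e) (by norm_num)
  obtain ⟨a, h1, h2⟩ := Set.not_subset.1 h.1.not_ge
  have a0 : a.2 ≠ 0 := fun e => h2 (hu (Or.inr e))
  obtain ⟨b, hb, -, h3⟩ := up (hu.trans h.1.le) h1 0
  have h4 := h3.resolve_right a0
  refine h.2 (c := I b.2) (lt_of_le_not_ge (fun c hc => Or.inl ?_) fun g => h2 (g (Or.inl h4)))
    (lt_of_le_not_ge (fun c hc => ?_) fun g => ?_)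
  · by_contra g
    exact h2 (low hu hc (h4.le.trans (not_lt.1 g)))
  · refine low (hu.trans h.1.le) hb ?_
    rcases hc with e | e
    · exact e.le
    · exact e ▸ zero_le
  · rcases g hb with e | e
    · exact lt_irrefl _ e
    · exact not_lt.2 zero_le (e ▸ h4)

end Pool.Agent.Results.MP_e59eee_co.Counter
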